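import Mathlib
import Pool.Agent.S08001

/-!
# MP_a7fafd_co: the six undecided four-letter patterns are all avoidable in the abelian sense

By the criterion proved in the starting file `Pool.Agent.S08001` a pattern with four variables is abelian
avoidable as soon as the Zimin word `Z_4 = 121312141213121` does not encounter it in the abelian sense; for each
of the six patterns this is a finite search, carried out by a verified checker.
-/

set_option autoImplicit false

namespace Pool.Agent.Results.MP_a7fafd_co.SixAvoidable

/-- The word `w` encounters the pattern `p` in the abelian sense: some factor of `w` is a product of nonempty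
blocks `u 0 ⋯ u (m-1)` (`m` the length of `p`), blocks at positions with the same variable being permutations of
each other. -/
def Encounters {α : Type} (w : List α) (p : List ℕ) : Prop :=
  ∃ u : Fin p.length → List α, (∀ i, u i ≠ []) ∧ (List.ofFn u).flatten <:+: w ∧
    ∀ i j : Fin p.length, p.get i = p.get j → (u i).Perm (u j)

/-- The pattern `p` is avoidable in the abelian sense: over some finite alphabet there is an infinite word `x`,
no finite factor `x n, …, x (n + m - 1)` of which encounters `p` in the abelian sense. -/
def AbelianAvoidable (p : List ℕ) : Prop :=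
  ∃ (k : ℕ) (x : ℕ → Fin k), ∀ n m : ℕ, ¬ Encounters ((List.range m).map fun t => x (n + t)) p

/-! ### The checker -/

/-- Can a beginning of `z` be cut according to the pattern, given the blocks already chosen in `env`? -/
def enc : List ℕ → (ℕ → Option (List ℕ)) → List ℕ → Bool
  | [], _, _ => true
  | v :: p, env, z =>
    (List.range (z.length - p.length)).any fun L =>
      match env v with
      | some c => (z.take (L + 1)).isPerm c && enc p env (z.drop (L + 1))
      | none => enc p (fun i => if i = v then some (z.take (L + 1)) else env i) (z.drop (L + 1))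

theorem length_le_flatten : ∀ bl : List (List ℕ), (∀ b ∈ bl, b ≠ []) → bl.length ≤ bl.flatten.length
  | [], _ => by simp
  | b :: bl, h => by
    have h1 : 1 ≤ b.length := List.length_pos_iff.mpr (h b (by simp))
    have h2 := length_le_flatten bl (fun c hc => h c (by simp [hc]))
    simp only [List.length_cons, List.flatten_cons, List.length_append]
    omega

theorem enc_complete : ∀ (p : List ℕ) (bl : List (List ℕ)) (z : List ℕ) (env : ℕ → Option (List ℕ)),
    (∀ b ∈ bl, b ≠ []) → bl.length = p.length → bl.flatten <+: z →
    (∀ x ∈ List.zip p bl, ∀ y ∈ List.zip p bl, x.1 = y.1 → x.2.Perm y.2) →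
    (∀ x ∈ List.zip p bl, ∀ c, env x.1 = some c → x.2.Perm c) → enc p env z = true
  | [], _, _, _, _, _, _, _, _ => by simp [enc]
  | v :: p, [], _, _, _, hl, _, _, _ => by simp at hl
  | v :: p, b :: bl, z, env, hne, hl, hz, hc, he => by
    obtain ⟨r, hr⟩ := hz
    have hb : b ≠ [] := hne b (by simp)
    have hb1 : 1 ≤ b.length := List.length_pos_iff.mpr hb
    have hne' : ∀ c ∈ bl, c ≠ [] := fun c hc => hne c (by simp [hc])
    have hl' : bl.length = p.length := by simpa using hl
    have hfl := length_le_flatten bl hne'
    have hzl : z.length = b.length + bl.flatten.length + r.length := by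
      rw [← hr]
      simp only [List.flatten_cons, List.length_append]
    have ht : z.take (b.length - 1 + 1) = b := by
      rw [← hr, Nat.sub_add_cancel hb1]
      simp [List.flatten_cons, List.append_assoc]
    have hd : z.drop (b.length - 1 + 1) = bl.flatten ++ r := by
      rw [← hr, Nat.sub_add_cancel hb1]
      simp [List.flatten_cons, List.append_assoc]
    have hpre : bl.flatten <+: z.drop (b.length - 1 + 1) := by
      rw [hd]
      exact List.prefix_append _ _
    have hc' : ∀ x ∈ List.zip p bl, ∀ y ∈ List.zip p bl, x.1 = y.1 → x.2.Perm y.2 := by
      intro x hx y hy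
      exact hc x (by simp [hx]) y (by simp [hy])
    rw [enc, List.any_eq_true]
    refine ⟨b.length - 1, ?_, ?_⟩
    · rw [List.mem_range]
      omega
    · cases hv : env v with
      | some c =>
        simp only [Bool.and_eq_true]
        refine ⟨?_, ?_⟩
        · rw [ht, List.isPerm_iff]
          exact he (v, b) (by simp) c hv
        · exact enc_complete p bl _ env hne' hl' hpre hc' (fun x hx => he x (by simp [hx]))
      | none =>
        simp only
        refine enc_complete p bl _ _ hne' hl' hpre hc' ?_
        intro x hx c hxc
        by_cases hxv : x.1 = v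
        · rw [if_pos hxv] at hxc
          have hcb : c = b := by
            rw [← ht]
            exact (Option.some.inj hxc).symm
          rw [hcb]
          exact hc x (by simp [hx]) (v, b) (by simp) hxv
        · rw [if_neg hxv] at hxc
          exact he x (by simp [hx]) c hxc

/-- The Zimin word `Z_4`. -/
def zimin4 : List ℕ := [1, 2, 1, 3, 1, 2, 1, 4, 1, 2, 1, 3, 1, 2, 1]

/-- No suffix of `Z_4` starts with an abelian instance of `p`. -/
def checked (p : List ℕ) : Bool :=
  (List.range 16).all fun i => ! enc p (fun _ => none) (zimin4.drop i)

theorem not_encounters_of_checked (p : List ℕ) (h : checked p = true) (f : Fin p.length → List ℕ)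
    (hne : ∀ t, f t ≠ []) (hw : (List.ofFn f).flatten <:+: zimin4)
    (hperm : ∀ a b : Fin p.length, p.get a = p.get b → (f a).Perm (f b)) : False := by
  obtain ⟨s, t, hst⟩ := hw
  have hs : s.length < 16 := by
    have h1 : zimin4.length = 15 := rfl
    have h2 := congrArg List.length hst
    simp only [List.length_append] at h2
    omega
  have hz : zimin4.drop s.length = (List.ofFn f).flatten ++ t := by
    rw [← hst, List.append_assoc, List.drop_left]
  have hzip : ∀ x ∈ List.zip p (List.ofFn f), ∃ a : Fin p.length, x.1 = p.get a ∧ x.2 = f a := by
    intro x hx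
    obtain ⟨i, hi, hxi⟩ := List.mem_iff_getElem.mp hx
    have hi' : i < p.length := by
      simp only [List.length_zip, List.length_ofFn, min_self] at hi
      exact hi
    refine ⟨⟨i, hi'⟩, ?_, ?_⟩
    · rw [← hxi]
      simp
    · rw [← hxi]
      simp
  have henc : enc p (fun _ => none) (zimin4.drop s.length) = true := by
    refine enc_complete p (List.ofFn f) _ _ ?_ (by simp) ?_ ?_ ?_
    · intro b hb
      rw [List.mem_ofFn] at hb
      obtain ⟨a, rfl⟩ := hb
      exact hne a
    · rw [hz]
      exact List.prefix_append _ _
    · intro x hx y hy hxy
      obtain ⟨a, ha1, ha2⟩ := hzip x hx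
      obtain ⟨b, hb1, hb2⟩ := hzip y hy
      rw [ha2, hb2]
      exact hperm a b (by rw [← ha1, ← hb1, hxy])
    · intro x _ c hc
      simp at hc
  have h3 := List.all_eq_true.mp h s.length (List.mem_range.mpr hs)
  rw [henc] at h3
  simp at h3

theorem avoidable_of_checked (p : List ℕ) (h4 : p.toFinset.card = 4) (h : checked p = true) :
    AbelianAvoidable p := by
  have hS := (Pool.Agent.S08001.result p).mpr (by
    rintro ⟨w, hw, f, hne, hfl, hperm⟩
    rw [h4] at hw
    refine not_encounters_of_checked p h f hne ?_ hperm
    rw [hfl]
    exact hw)
  obtain ⟨k, x, hx⟩ := hS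
  refine ⟨k, x, ?_⟩
  rintro n m ⟨u, hne, ⟨s, t, hst⟩, hperm⟩
  refine hx (n + s.length) (List.ofFn u).flatten.length ⟨u, hne, ?_, hperm⟩
  apply List.ext_getElem
  · simp
  · intro i h1 h2
    have hlen := congrArg List.length hst
    simp only [List.length_append, List.length_map, List.length_range] at hlen
    have hi : s.length + i < m := by omega
    have h5 : (s ++ (List.ofFn u).flatten ++ t)[s.length + i]? =
        ((List.range m).map fun t => x (n + t))[s.length + i]? := by rw [hst]
    rw [List.append_assoc, List.getElem?_append_right (Nat.le_add_right _ _), Nat.add_sub_cancel_left,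
      List.getElem?_append_left h1, List.getElem?_eq_getElem h1, List.getElem?_map,
      List.getElem?_range hi] at h5
    simp only [Option.map_some] at h5
    rw [List.getElem_map, List.getElem_range, Option.some.inj h5, Nat.add_assoc]

/-- Each of the six patterns `01020312`, `01020321`, `01021303`, `01023031`, `010203013`, `010213020` is
avoidable in the abelian sense. -/
theorem result : ∀ p ∈ [[0, 1, 0, 2, 0, 3, 1, 2], [0, 1, 0, 2, 0, 3, 2, 1], [0, 1, 0, 2, 1, 3, 0, 3],
    [0, 1, 0, 2, 3, 0, 3, 1], [0, 1, 0, 2, 0, 3, 0, 1, 3], [0, 1, 0, 2, 1, 3, 0, 2, 0]],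
    AbelianAvoidable p := by
  intro p hp
  simp only [List.mem_cons, List.not_mem_nil, or_false] at hp
  rcases hp with rfl | rfl | rfl | rfl | rfl | rfl
  · exact avoidable_of_checked _ (by decide) (by decide +kernel)
  · exact avoidable_of_checked _ (by decide) (by decide +kernel)
  · exact avoidable_of_checked _ (by decide) (by decide +kernel)
  · exact avoidable_of_checked _ (by decide) (by decide +kernel)
  · exact avoidable_of_checked _ (by decide) (by decide +kernel)
  · exact avoidable_of_checked _ (by decide) (by decide +kernel)

end Pool.Agent.Results.MP_a7fafd_co.SixAvoidable
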